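import Pool.Agent.Helper77.SD.St

/-! # Project SD, module `SHC`: the shift inequality for `w ∈ C¹_c` -/

set_option autoImplicit false

namespace Pool.Agent.Helper92.SD

open MeasureTheory Metric Set
open scoped Gradient RealInnerProductSpace Topology
open Pool.Agent.Helper77.SD

variable {d : ℕ}

lemma hasDerivAt_line {w : E d → ℝ} (hw : ContDiff ℝ 1 w) (l x : E d) (t : ℝ) :
    HasDerivAt (fun s : ℝ => w (x + s • l)) ⟪∇ w (x + t • l), l⟫ t := by
  have h1 : HasFDerivAt w (fderiv ℝ w (x + t • l)) (x + t • l) :=
    ((hw.differentiable (by norm_num)) _).hasFDerivAt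
  have h2 : HasDerivAt (fun s : ℝ => x + s • l) l t := by
    simpa using ((hasDerivAt_id t).smul_const l).const_add x
  have h3 := h1.comp_hasDerivAt t h2
  have h4 : ⟪∇ w (x + t • l), l⟫ = fderiv ℝ w (x + t • l) l := by
    rw [gradient, InnerProductSpace.toDual_symm_apply]
  rw [h4]; exact h3

/-- the correlation function -/
noncomputable def corr (w : E d → ℝ) (l : E d) (t : ℝ) : ℝ := ∫ x, w x * w (x + t • l)

lemma integrable_w_mul {w g : E d → ℝ} (hw : Continuous w) (hc : HasCompactSupport w) (hg : Continuous g) :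
    Integrable (fun x => w x * g x) :=
  (hw.mul hg).integrable_of_hasCompactSupport hc.mul_right

lemma hasDerivAt_corr {w : E d → ℝ} (hw : ContDiff ℝ 1 w) (hc : HasCompactSupport w) (l : E d) (t : ℝ) :
    HasDerivAt (corr w l) (∫ x, w x * ⟪∇ w (x + t • l), l⟫) t := by
  obtain ⟨C, hC⟩ := (compact_grad hc).exists_bound_of_continuous (continuous_grad hw)
  have hcont : ∀ s : ℝ, Continuous (fun x : E d => x + s • l) := fun s => by fun_prop
  have hint : Integrable w := hw.continuous.integrable_of_hasCompactSupport hc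
  refine (hasDerivAt_integral_of_dominated_loc_of_deriv_le (μ := volume) (s := univ)
    (F := fun (s : ℝ) (x : E d) => w x * w (x + s • l))
    (F' := fun (s : ℝ) (x : E d) => w x * ⟪∇ w (x + s • l), l⟫)
    (bound := fun x => ‖w x‖ * (C * ‖l‖)) Filter.univ_mem ?_ ?_ ?_ ?_ ?_ ?_).2
  · exact Filter.Eventually.of_forall fun s =>
      (hw.continuous.mul (hw.continuous.comp (hcont s))).aestronglyMeasurable
  · exact integrable_w_mul hw.continuous hc (hw.continuous.comp (hcont t))
  · exact (hw.continuous.mul (((continuous_grad hw).comp (hcont t)).inner continuous_const)).aestronglyMeasurable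
  · refine Filter.Eventually.of_forall fun x s _ => ?_
    rw [norm_mul]
    refine mul_le_mul_of_nonneg_left ?_ (norm_nonneg _)
    rw [Real.norm_eq_abs]
    exact (abs_real_inner_le_norm _ _).trans (mul_le_mul_of_nonneg_right (hC _) (norm_nonneg _))
  · exact hint.norm.mul_const _
  · exact Filter.Eventually.of_forall fun x s _ => (hasDerivAt_line hw l x s).const_mul (w x)

lemma corr_neg (w : E d → ℝ) (l : E d) (t : ℝ) : corr w l (-t) = corr w l t := by
  unfold corr
  rw [← integral_add_right_eq_self (fun x => w x * w (x + (-t) • l)) (t • l)]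
  congr 1; ext x
  have h : x + t • l + (-t) • l = x := by simp
  rw [h, mul_comm]

lemma deriv_eq {w : E d → ℝ} (l : E d) (t : ℝ) :
    ∫ x, w x * ⟪∇ w (x + t • l), l⟫ = ∫ x, ⟪∇ w x, l⟫ * w (x - t • l) := by
  rw [← integral_add_right_eq_self (fun x => ⟪∇ w x, l⟫ * w (x - t • l)) (t • l)]
  congr 1; ext x
  rw [add_sub_cancel_right, mul_comm]

theorem hSHC : StSHC := by
  intro d l S w hw hc hS
  have hcw := hw.continuous
  have hcg : Continuous (fun x => ⟪∇ w x, l⟫) := (continuous_grad hw).inner continuous_const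
  have hsg : HasCompactSupport (fun x => ⟪∇ w x, l⟫) :=
    (compact_grad hc).comp_left (g := fun y : E d => ⟪y, l⟫) (inner_zero_left _)
  -- the derivative of `D(t) + D(-t)`
  have hder : ∀ t : ℝ, HasDerivAt (fun s => corr w l s + corr w l (-s))
      (-∫ x, ⟪∇ w x, l⟫ * (w (x + t • l) - w (x - t • l))) t := by
    intro t
    have h1 := hasDerivAt_corr hw hc l t
    have h2 : HasDerivAt (fun s : ℝ => corr w l (-s)) ((∫ x, w x * ⟪∇ w (x + (-t) • l), l⟫) * (-1)) t :=
      HasDerivAt.comp t (hasDerivAt_corr hw hc l (-t)) (hasDerivAt_neg t)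
    have h3 := h1.add h2
    rw [deriv_eq, deriv_eq] at h3
    have e1 : ∀ x : E d, x - (-t) • l = x + t • l := fun x => by simp
    have e2 : (∫ x, ⟪∇ w x, l⟫ * w (x - t • l)) + (∫ x, ⟪∇ w x, l⟫ * w (x - (-t) • l)) * (-1)
        = -∫ x, ⟪∇ w x, l⟫ * (w (x + t • l) - w (x - t • l)) := by
      simp only [e1]
      rw [mul_neg_one, ← sub_eq_add_neg, ← integral_sub, ← integral_neg]
      · congr 1; ext x; ring
      · exact (hcg.mul (hcw.comp (by fun_prop))).integrable_of_hasCompactSupport hsg.mul_right
      · exact (hcg.mul (hcw.comp (by fun_prop))).integrable_of_hasCompactSupport hsg.mul_right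
    rw [e2] at h3
    exact h3
  have hmv := Convex.mul_sub_le_image_sub_of_le_deriv (D := Icc (0 : ℝ) 1) (convex_Icc 0 1)
    (f := fun s => corr w l s + corr w l (-s)) (C := -S)
    (fun t _ => (hder t).continuousAt.continuousWithinAt)
    (fun t _ => (hder t).differentiableAt.differentiableWithinAt)
    (fun t ht => by
      rw [(hder t).deriv]
      exact neg_le_neg (hS t (interior_subset ht)))
    0 (by simp) 1 (by simp) zero_le_one
  simp only [corr_neg] at hmv
  -- the square
  have hsq : nrm (fun x => w (x + l) - w x) ^ 2 = 2 * corr w l 0 - 2 * corr w l 1 := by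
    rw [nrm_sq]
    have hA : Integrable (fun x => w x * w x) := integrable_w_mul hcw hc hcw
    have hB : Integrable (fun x => w x * w (x + l)) := integrable_w_mul hcw hc (hcw.comp (by fun_prop))
    have hA' : Integrable (fun x => w (x + l) * w (x + l)) := hA.comp_add_right l
    have e1 : ∀ x, ‖w (x + l) - w x‖ ^ 2 = (w (x + l) * w (x + l) + w x * w x) - 2 * (w x * w (x + l)) := by
      intro x
      rw [Real.norm_eq_abs, sq_abs]; ring
    simp only [e1]
    have hAB : Integrable (fun x => w (x + l) * w (x + l) + w x * w x) := hA'.add hA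
    rw [integral_sub hAB (hB.const_mul 2), integral_add hA' hA, integral_const_mul]
    rw [integral_add_right_eq_self (fun x => w x * w x) l]
    simp only [corr, zero_smul, add_zero, one_smul]
    ring
  rw [hsq]
  linarith

end Pool.Agent.Helper92.SD
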